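import Pool.Agent.U549.NE.Sys

/-!
# The system `A + B = C`, `A B C = D ^ n` with `gcd (A, B, C) = p ^ k`: divisors of the terms

Let `n ≥ 5` be a prime and `p` an odd prime which is not congruent to `1` modulo `2 n`, and let
`A, B, C, D` be positive integers with `A + B = C`, `A B C = D ^ n` and `gcd (A, B, C) = p ^ k`. Let
`p ^ k t` be one of `A`, `B`, `C`, where `p` does not divide `t` (this is true for at least two of the
three terms).

(1) If `n` does not divide `t`, then `q ^ (n - 1) = 1` modulo `n ^ 2` for every prime divisor `q` of `t`.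
(2) If `n` divides `t` and does not divide `k`, then `p ^ (n - 1) = 1` modulo `n ^ 2`.

In particular, if `n ∤ k` and `p ^ (n - 1)` is not `1` modulo `n ^ 2`, then the terms `t` prime to `p` are
products of primes `q` with `q ^ (n - 1) = 1` modulo `n ^ 2`; so if also `2 ^ (n - 1)` is not `1` modulo
`n ^ 2`, then `2` divides the third term and not these two. The case `p = n` is included, and `n` may
divide `D`.

Proof. As in `FirstCaseCriterion` there are coprime integers `x`, `y` with `x ^ n + y ^ n = p ^ j z ^ n`,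
`x ^ n = ± t`, and the ideal of `x + ζ y` (divided by `1 - ζ` if `n` divides `x + y`) is the `n`-th power
of an ideal. Let `q` be a prime, `q ≠ n`, with `q ^ (n - 1) ≠ 1` modulo `n ^ 2`. The relation of
Stickelberger `(x + ζ y) ^ θ = ζ ^ i g ^ n`, compared with its complex conjugate modulo a prime above
`q`, determines `i` if `q` divides `x` or `x + y`, and `i` is determined by the relation modulo `n` too.
If `q` divides `x` it follows that `n` divides `x`; if `n` divides `x + y` there is a contradiction. If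
`q = p` divides `x + y` and `n` does not divide `x + y`, it follows that `x = y` modulo `n`, so `n` does
not divide `x`.
-/

set_option autoImplicit false

namespace Pool.Agent.Results.MP_aeefb1_nt.DivisorsOfTerms

theorem result (n p k A B C D t : ℕ) (hn : n.Prime) (h5 : 5 ≤ n) (hp : p.Prime) (hp2 : p ≠ 2)
    (hpn : ¬ p ≡ 1 [MOD 2 * n]) (hA : 0 < A) (hB : 0 < B) (h : A + B = C)
    (hD : A * B * C = D ^ n) (hg : Nat.gcd (Nat.gcd A B) C = p ^ k)
    (ht : A = p ^ k * t ∨ B = p ^ k * t ∨ C = p ^ k * t) (hpt : ¬ p ∣ t) :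
    (¬ n ∣ t → ∀ q : ℕ, q.Prime → q ∣ t → q ^ (n - 1) ≡ 1 [MOD n ^ 2]) ∧
    (n ∣ t → ¬ n ∣ k → p ^ (n - 1) ≡ 1 [MOD n ^ 2]) := by
  obtain ⟨h1, h2⟩ := Pool.Agent.U549.NE.main_two hn h5 hp hp2 hpn hA hB h hD hg ht hpt
  refine ⟨fun hnt q hq hqt => ?_, fun hnt hk => ?_⟩
  · exact ((Nat.modEq_iff_dvd' (Nat.one_le_pow _ _ hq.pos)).2 (h1 hnt q hq hqt)).symm
  · exact ((Nat.modEq_iff_dvd' (Nat.one_le_pow _ _ hp.pos)).2 (h2 hnt hk)).symm

end Pool.Agent.Results.MP_aeefb1_nt.DivisorsOfTerms
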