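import Pool.Agent.U549.NE.Sys

/-!
# The system `A + B = C`, `A B C = D ^ n` with `gcd (A, B, C) = p ^ k`: solutions with `n ∤ D`

Let `n` and `p` be odd primes such that `p` is not congruent to `1` modulo `2 n`, and let `k ≥ 1`. If
there are positive integers `A, B, C, D` with `A + B = C`, `A B C = D ^ n`, `gcd (A, B, C) = p ^ k`
and `n ∤ D`, then

  `(2 p ^ (3 k)) ^ (n - 1) = 1` modulo `n ^ 2`.

So for given `n` and `p` the system has no solution with `n ∤ D` for any `k` if `p ^ (n - 1) = 1` and
`2 ^ (n - 1) ≠ 1` modulo `n ^ 2`, and otherwise, if `p ^ (n - 1) ≠ 1` modulo `n ^ 2`, the exponent `k`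
is in one residue class modulo `n` (which depends on `n` and `p`). There is no condition of
regularity on `n`.

Proof. After division by `p ^ k` two of the terms are `n`-th powers up to the sign and the third is
`p ^ j` times an `n`-th power with `n ∣ 3 k + j`, so `x ^ n + y ^ n = p ^ j z ^ n` with coprime integers
`x`, `y`. As `p` is not `1` modulo `n`, it divides `x + y` if `j > 0`, and the ideal of `x + ζ y` is the
`n`-th power of an ideal, `ζ` a root of unity of order `n`. The relation of Stickelberger for the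
Jacobi sums gives `(x + ζ y) ^ θ = ζ ^ i g ^ n`, and `i` is determined modulo `n` by `x` and `y` modulo
`n`. Let `q ≠ n` be a prime with `q ^ (n - 1) ≠ 1` modulo `n ^ 2`. If `q` divides `x + y`, comparison of
the relation modulo a prime above `q` with its complex conjugate determines `i` again, and it follows
that `x = y` modulo `n`; and `q` does not divide `x` or `y`, because then `n` would divide `x` or `y`.
This is used for `q = 2` and for `q = p`. If `x = y` modulo `n` then `2 x ^ n = p ^ j z ^ n` modulo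
`n ^ 2`, hence `2 ^ (n - 1) = p ^ (j (n - 1))`. If not, then `2 ^ (n - 1) = 1` and `p ^ (n - 1) = 1` or
`j = 0`. In both cases the congruence follows from `n ∣ 3 k + j`.
-/

set_option autoImplicit false

namespace Pool.Agent.Results.MP_aeefb1_nt.FirstCaseCriterion

theorem result (n p k A B C D : ℕ) (hn : n.Prime) (hn2 : n ≠ 2) (hp : p.Prime) (hp2 : p ≠ 2)
    (hpn : ¬ p ≡ 1 [MOD 2 * n]) (hk : 1 ≤ k) (hA : 0 < A) (hB : 0 < B) (h : A + B = C)
    (hD : A * B * C = D ^ n) (hg : Nat.gcd (Nat.gcd A B) C = p ^ k) (hnD : ¬ n ∣ D) :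
    (2 * p ^ (3 * k)) ^ (n - 1) ≡ 1 [MOD n ^ 2] := by
  have h1 := Pool.Agent.U549.NE.main_one hn hn2 hp hp2 hpn hk hA hB h hD hg hnD
  have h2 : 1 ≤ (2 * p ^ (3 * k)) ^ (n - 1) :=
    Nat.one_le_pow _ _ (Nat.mul_pos two_pos (pow_pos hp.pos _))
  exact ((Nat.modEq_iff_dvd' h2).2 h1).symm

end Pool.Agent.Results.MP_aeefb1_nt.FirstCaseCriterion
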